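import Mathlib

/-!
Nonnegative real part of `P_{α,β}` on the unit disk.

Proof.  Put `w = (1 + z)/(1 - z) = ρ e^{iφ}` with `ρ > 0`, `|φ| < π/2`, and write `c = cos φ`,
`s = sin φ`.  Since `β ≤ α/(2(1-α)) < 1` the number `Re p_β` is positive, and it suffices to bound
`Re (S p_β)` from below, where `S = 1 - r² + 2β r² + 2β(1-r²) z/(1-z²)`.  A computation gives
`|w+1|² Re (S p_β) = ρ^β { 4ρc(1-β) cos βφ + 2β [ (ρ²+1) s sin((1-β)φ) + 2ρ²c² cos βφ ] } ≥ 0`.
-/

set_option autoImplicit false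

open Complex

namespace Pool.Agent.Results.MP_54ed65_an.RealPart

/-- `p_β(z) = ((1+z)/(1-z))^β` (principal power). -/
noncomputable def p (β : ℝ) (z : ℂ) : ℂ := ((1 + z) / (1 - z)) ^ (β : ℂ)

/-- `P_{α,β}(z) = {α r² + (1-α)(1-r²)} p_β(z) + (1-α)(1-r²) z p_β'(z)` with `r = |z|`. -/
noncomputable def P (α β : ℝ) (z : ℂ) : ℂ :=
  ((α * ‖z‖ ^ 2 + (1 - α) * (1 - ‖z‖ ^ 2) : ℝ) : ℂ) * p β z
    + (((1 - α) * (1 - ‖z‖ ^ 2) : ℝ) : ℂ) * (z * deriv (p β) z)

lemma trig_ineq {β φ ρ : ℝ} (h0 : 0 < β) (h1 : β < 1) (hφ1 : -(Real.pi / 2) < φ)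
    (hφ2 : φ < Real.pi / 2) (hρ : 0 < ρ) :
    0 ≤ Real.cos (β * φ) * (4 * (ρ * Real.cos φ) + 2 * β * (ρ ^ 2 + 1 - 2 * (ρ * Real.cos φ)
        + Real.cos φ ^ 2 * (ρ ^ 2 - 1)))
      - Real.sin (β * φ) * (2 * β * (Real.cos φ * Real.sin φ) * (ρ ^ 2 + 1)) := by
  have hc : 0 < Real.cos φ := Real.cos_pos_of_mem_Ioo ⟨hφ1, hφ2⟩
  have hcb : 0 < Real.cos (β * φ) := by
    apply Real.cos_pos_of_mem_Ioo
    constructor
    · rcases le_total 0 φ with h | h
      · have : 0 ≤ β * φ := by positivity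
        have := Real.pi_pos
        linarith
      · nlinarith
    · rcases le_total 0 φ with h | h
      · nlinarith
      · have : β * φ ≤ 0 := mul_nonpos_of_nonneg_of_nonpos h0.le h
        have := Real.pi_pos
        linarith
  have hss : 0 ≤ Real.sin φ * Real.sin ((1 - β) * φ) := by
    rcases le_total 0 φ with h | h
    · apply mul_nonneg
      · apply Real.sin_nonneg_of_nonneg_of_le_pi h
        have := Real.pi_pos
        linarith
      · apply Real.sin_nonneg_of_nonneg_of_le_pi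
        · exact mul_nonneg (by linarith) h
        · have := Real.pi_pos
          nlinarith
    · apply mul_nonneg_of_nonpos_of_nonpos
      · apply Real.sin_nonpos_of_nonpos_of_neg_pi_le h
        have := Real.pi_pos
        linarith
      · apply Real.sin_nonpos_of_nonpos_of_neg_pi_le
        · exact mul_nonpos_of_nonneg_of_nonpos (by linarith) h
        · have := Real.pi_pos
          nlinarith
  have hsin : Real.sin ((1 - β) * φ)
      = Real.sin φ * Real.cos (β * φ) - Real.cos φ * Real.sin (β * φ) := by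
    rw [← Real.sin_sub]; congr 1; ring
  have hcs : Real.sin φ ^ 2 = 1 - Real.cos φ ^ 2 := by
    have := Real.sin_sq_add_cos_sq φ
    linarith
  have e : Real.cos (β * φ) * (4 * (ρ * Real.cos φ) + 2 * β * (ρ ^ 2 + 1 - 2 * (ρ * Real.cos φ)
        + Real.cos φ ^ 2 * (ρ ^ 2 - 1)))
      - Real.sin (β * φ) * (2 * β * (Real.cos φ * Real.sin φ) * (ρ ^ 2 + 1))
      = 4 * ρ * Real.cos φ * (1 - β) * Real.cos (β * φ)
        + 2 * β * ((ρ ^ 2 + 1) * (Real.sin φ * Real.sin ((1 - β) * φ))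
          + 2 * ρ ^ 2 * Real.cos φ ^ 2 * Real.cos (β * φ)) := by
    rw [hsin]
    have : Real.sin φ * (Real.sin φ * Real.cos (β * φ) - Real.cos φ * Real.sin (β * φ))
      = (1 - Real.cos φ ^ 2) * Real.cos (β * φ) - Real.cos φ * Real.sin φ * Real.sin (β * φ) := by
      rw [← hcs]; ring
    rw [this]; ring
  rw [e]
  have h1b : 0 < 1 - β := by linarith
  positivity

/-- **Q1.** If `0 < α < 2/3`, `β > 0` and `α - 2(1-α)β ≥ 0`, then `Re P_{α,β} ≥ 0` on the unit
disk. -/
theorem result (α β : ℝ) (hα0 : 0 < α) (hα : α < 2 / 3) (hβ : 0 < β)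
    (hαβ : 0 ≤ α - 2 * (1 - α) * β) (z : ℂ) (hz : ‖z‖ < 1) : 0 ≤ (P α β z).re := by
  have hβ1 : β < 1 := by nlinarith
  have hα1 : 0 < 1 - α := by linarith
  have h1z : (1 - z) ≠ 0 := by
    intro h
    have : z = 1 := by linear_combination -h
    rw [this] at hz; simp at hz
  have h1z' : (1 + z) ≠ 0 := by
    intro h
    have : z = -1 := by linear_combination h
    rw [this] at hz; simp at hz
  set w : ℂ := (1 + z) / (1 - z) with hw
  have hw0 : w ≠ 0 := div_ne_zero h1z' h1z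
  have hr2 : ‖z‖ ^ 2 = z.re ^ 2 + z.im ^ 2 := by
    rw [← Complex.normSq_eq_norm_sq, Complex.normSq_apply]; ring
  have hr1 : z.re ^ 2 + z.im ^ 2 < 1 := by
    rw [← hr2]
    nlinarith [norm_nonneg z]
  -- real part of w
  have hwre : 0 < w.re := by
    rw [hw, Complex.div_re]
    have hn : 0 < Complex.normSq (1 - z) := Complex.normSq_pos.2 h1z
    rw [← add_div]
    apply div_pos _ hn
    simp
    nlinarith
  -- the derivative
  have hder : z * deriv (p β) z = (2 * β * z / (1 - z ^ 2)) * p β z := by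
    have hd : HasDerivAt (fun z : ℂ => (1 + z) / (1 - z)) (2 / (1 - z) ^ 2) z := by
      have h1 : HasDerivAt (fun z : ℂ => 1 + z) 1 z := by
        simpa using (hasDerivAt_id z).const_add 1
      have h2 : HasDerivAt (fun z : ℂ => 1 - z) (-1) z := by
        simpa using (hasDerivAt_id z).const_sub 1
      have h3 := h1.fun_div h2 h1z
      refine h3.congr_deriv ?_
      congr 1
      ring
    have hd2 : HasDerivAt (p β) (β * w ^ ((β : ℂ) - 1) * (2 / (1 - z) ^ 2)) z := by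
      have := hd.cpow_const (c := (β : ℂ)) (Or.inl hwre)
      exact this
    rw [hd2.deriv]
    have e1 : w ^ ((β : ℂ) - 1) = w ^ (β : ℂ) / w := by
      rw [Complex.cpow_sub _ _ hw0, Complex.cpow_one]
    rw [e1]
    have e2 : p β z = w ^ (β : ℂ) := rfl
    rw [e2]
    have h4 : (1 - z ^ 2) ≠ 0 := by
      have : (1 - z ^ 2) = (1 + z) * (1 - z) := by ring
      rw [this]; exact mul_ne_zero h1z' h1z
    rw [hw]
    field_simp
    ring
  -- polar form
  set ρ : ℝ := ‖w‖ with hρ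
  set φ : ℝ := w.arg with hφ
  have hρ0 : 0 < ρ := norm_pos_iff.2 hw0
  have hφ2 : |φ| < Real.pi / 2 := Complex.abs_arg_lt_pi_div_two_iff.2 (Or.inl hwre)
  have hφa := (abs_lt.1 hφ2).1
  have hφb := (abs_lt.1 hφ2).2
  have hwa : w.re = ρ * Real.cos φ := by
    rw [hρ, hφ, Complex.norm_mul_cos_arg]
  have hwb : w.im = ρ * Real.sin φ := by
    rw [hρ, hφ, Complex.norm_mul_sin_arg]
  have hp : p β z = ((ρ ^ β : ℝ) : ℂ) * (Real.cos (β * φ) + Real.sin (β * φ) * I) := by
    have e2 : p β z = w ^ (β : ℂ) := rfl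
    rw [e2, Complex.cpow_def_of_ne_zero hw0]
    have : Complex.log w * β = ((Real.log ρ * β : ℝ) : ℂ) + ((β * φ : ℝ) : ℂ) * I := by
      rw [Complex.log]
      push_cast
      rw [← hρ, ← hφ]
      ring
    rw [this, Complex.exp_add, Complex.exp_mul_I, ← Complex.ofReal_exp, ← Complex.ofReal_cos,
      ← Complex.ofReal_sin]
    congr 2
    rw [Real.rpow_def_of_pos hρ0]
  have hρβ : 0 < ρ ^ β := Real.rpow_pos_of_pos hρ0 β
  have hcb : 0 < Real.cos (β * φ) := by
    apply Real.cos_pos_of_mem_Ioo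
    constructor
    · rcases le_total 0 φ with h | h
      · have : 0 ≤ β * φ := by positivity
        have := Real.pi_pos
        linarith
      · nlinarith
    · rcases le_total 0 φ with h | h
      · nlinarith
      · have : β * φ ≤ 0 := mul_nonpos_of_nonneg_of_nonpos hβ.le h
        have := Real.pi_pos
        linarith
  have hpre : 0 < (p β z).re := by
    rw [hp, Complex.re_ofReal_mul]
    apply mul_pos hρβ
    simp only [Complex.add_re, Complex.ofReal_re, Complex.mul_re, Complex.ofReal_im, Complex.I_re,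
      Complex.I_im, mul_zero, zero_mul, sub_zero, add_zero]
    exact hcb
  -- z in terms of w
  have hw1 : w + 1 ≠ 0 := by
    intro h
    have := congrArg Complex.re h
    simp at this
    linarith
  have hzw : z = (w - 1) / (w + 1) := by
    rw [eq_div_iff hw1, hw]
    field_simp
    ring
  have hS : ((Complex.normSq (w + 1) : ℝ) : ℂ) *
      (((1 - ‖z‖ ^ 2 + 2 * β * ‖z‖ ^ 2 : ℝ) : ℂ)
        + ((1 - ‖z‖ ^ 2 : ℝ) : ℂ) * (2 * β * z / (1 - z ^ 2)))
      = 4 * (w.re : ℂ) + 2 * β * ((Complex.normSq (w - 1) : ℝ) + (w.re : ℂ) * (w - w⁻¹)) := by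
    have hn : Complex.normSq (w + 1) ≠ 0 := (Complex.normSq_pos.2 hw1).ne'
    have hnz : ‖z‖ ^ 2 = Complex.normSq (w - 1) / Complex.normSq (w + 1) := by
      rw [← Complex.normSq_eq_norm_sq, hzw, Complex.normSq_div]
    have hfr : 2 * (β : ℂ) * z / (1 - z ^ 2) = β * (w - w⁻¹) / 2 := by
      have h4 : (1 - z ^ 2) ≠ 0 := by
        have : (1 - z ^ 2) = (1 + z) * (1 - z) := by ring
        rw [this]; exact mul_ne_zero h1z' h1z
      rw [hw]
      field_simp
      ring
    have h1r : (1 - ‖z‖ ^ 2) = 4 * w.re / Complex.normSq (w + 1) := by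
      rw [hnz, eq_div_iff hn, sub_mul, div_mul_cancel₀ _ hn, Complex.normSq_apply,
        Complex.normSq_apply]
      simp
      ring
    rw [hfr]
    have h5 : (1 - ‖z‖ ^ 2 + 2 * β * ‖z‖ ^ 2 : ℝ)
        = (4 * w.re + 2 * β * Complex.normSq (w - 1)) / Complex.normSq (w + 1) := by
      rw [h1r, hnz]; ring
    rw [h5, h1r]
    have hn' : ((Complex.normSq (w + 1) : ℝ) : ℂ) ≠ 0 := by exact_mod_cast hn
    push_cast
    field_simp
    ring
  -- lower bound for the model expression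
  have hmodel : 0 ≤ ((((1 - ‖z‖ ^ 2 + 2 * β * ‖z‖ ^ 2 : ℝ) : ℂ)
        + ((1 - ‖z‖ ^ 2 : ℝ) : ℂ) * (2 * β * z / (1 - z ^ 2))) * p β z).re := by
    have hn : 0 < Complex.normSq (w + 1) := Complex.normSq_pos.2 hw1
    have key : 0 ≤ (((Complex.normSq (w + 1) : ℝ) : ℂ) *
      ((((1 - ‖z‖ ^ 2 + 2 * β * ‖z‖ ^ 2 : ℝ) : ℂ)
        + ((1 - ‖z‖ ^ 2 : ℝ) : ℂ) * (2 * β * z / (1 - z ^ 2))) * p β z)).re := by
      rw [← mul_assoc, hS, hp]
      have hT := trig_ineq hβ hβ1 hφa hφb hρ0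
      have hwinv : w⁻¹ = ((w.re / ρ ^ 2 : ℝ) : ℂ) - ((w.im / ρ ^ 2 : ℝ) : ℂ) * I := by
        rw [Complex.inv_def, Complex.normSq_eq_norm_sq, ← hρ]
        apply Complex.ext
        · simp [Complex.mul_re, ← Complex.ofReal_pow, div_eq_mul_inv]
        · simp [Complex.mul_im, ← Complex.ofReal_pow, div_eq_mul_inv]
      have hns : Complex.normSq (w - 1) = ρ ^ 2 + 1 - 2 * w.re := by
        rw [hρ, ← Complex.normSq_eq_norm_sq, Complex.normSq_apply, Complex.normSq_apply]
        simp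
        ring
      have expand : (4 * (w.re : ℂ) + 2 * β * ((Complex.normSq (w - 1) : ℝ)
          + (w.re : ℂ) * (w - w⁻¹)))
          = ((4 * w.re + 2 * β * (ρ ^ 2 + 1 - 2 * w.re + w.re * (w.re - w.re / ρ ^ 2)) : ℝ) : ℂ)
            + ((2 * β * (w.re * (w.im + w.im / ρ ^ 2)) : ℝ) : ℂ) * I := by
        rw [hns, hwinv]
        conv_lhs => rw [← Complex.re_add_im w]
        simp only [Complex.add_re, Complex.ofReal_re, Complex.mul_re, Complex.I_re, mul_zero,
          Complex.ofReal_im, Complex.I_im, mul_one, sub_self, add_zero, Complex.add_im,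
          Complex.mul_im, zero_add]
        push_cast
        ring
      rw [expand]
      have hre : ((((4 * w.re + 2 * β * (ρ ^ 2 + 1 - 2 * w.re + w.re * (w.re - w.re / ρ ^ 2)) : ℝ)
            : ℂ) + ((2 * β * (w.re * (w.im + w.im / ρ ^ 2)) : ℝ) : ℂ) * I)
          * (((ρ ^ β : ℝ) : ℂ) * (Real.cos (β * φ) + Real.sin (β * φ) * I))).re
          = ρ ^ β * (Real.cos (β * φ) * (4 * w.re + 2 * β * (ρ ^ 2 + 1 - 2 * w.re
              + w.re * (w.re - w.re / ρ ^ 2)))
            - Real.sin (β * φ) * (2 * β * (w.re * (w.im + w.im / ρ ^ 2)))) := by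
        simp only [Complex.mul_re, Complex.add_re, Complex.add_im, Complex.ofReal_re,
          Complex.ofReal_im, Complex.I_re, Complex.I_im, Complex.mul_im]
        ring
      rw [hre]
      apply mul_nonneg hρβ.le
      have e3 : w.re * (w.re - w.re / ρ ^ 2) = Real.cos φ ^ 2 * (ρ ^ 2 - 1) := by
        rw [hwa]; field_simp
      have e4 : w.re * (w.im + w.im / ρ ^ 2) = Real.cos φ * Real.sin φ * (ρ ^ 2 + 1) := by
        rw [hwa, hwb]; field_simp
      rw [e3, e4, hwa]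
      have : Real.cos (β * φ) * (4 * (ρ * Real.cos φ) + 2 * β * (ρ ^ 2 + 1
            - 2 * (ρ * Real.cos φ) + Real.cos φ ^ 2 * (ρ ^ 2 - 1)))
          - Real.sin (β * φ) * (2 * β * (Real.cos φ * Real.sin φ * (ρ ^ 2 + 1)))
          = Real.cos (β * φ) * (4 * (ρ * Real.cos φ) + 2 * β * (ρ ^ 2 + 1
            - 2 * (ρ * Real.cos φ) + Real.cos φ ^ 2 * (ρ ^ 2 - 1)))
          - Real.sin (β * φ) * (2 * β * (Real.cos φ * Real.sin φ) * (ρ ^ 2 + 1)) := by ring
      rw [this]
      exact hT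
    rw [Complex.re_ofReal_mul] at key
    exact nonneg_of_mul_nonneg_right (by linarith) hn
  -- assembling
  have hfin : P α β z = ((((α - 2 * (1 - α) * β) * ‖z‖ ^ 2 : ℝ)) : ℂ) * p β z
      + ((1 - α : ℝ) : ℂ) * ((((1 - ‖z‖ ^ 2 + 2 * β * ‖z‖ ^ 2 : ℝ) : ℂ)
        + ((1 - ‖z‖ ^ 2 : ℝ) : ℂ) * (2 * β * z / (1 - z ^ 2))) * p β z) := by
    unfold P
    rw [hder]
    push_cast
    ring
  rw [hfin, Complex.add_re, Complex.re_ofReal_mul, Complex.re_ofReal_mul]
  have h6 : 0 ≤ (α - 2 * (1 - α) * β) * ‖z‖ ^ 2 := by positivity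
  positivity

end Pool.Agent.Results.MP_54ed65_an.RealPart
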